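import Pool.Agent.R962.SO.Final

/-!
# MP_33d18a_mp: the Siemieniec-Oziebło metric is not a subcase of the first Vaidya–Shah class

Points of `ℝ⁴` are `x : Fin 4 → ℝ`, with `x 0 = t`, `x 1 = r`, `x 2 = ϑ`, `x 3 = φ`; a metric is
given by the quadratic form `u ↦ g x u` (the value of `ds²` on the tangent vector `u` at `x`).
-/

namespace Pool.Agent.Results.MP_33d18a_mp.NotSubcase

open scoped Topology ContDiff
open Filter Real
open Pool.Agent.R962.SO

/-- The Siemieniec-Oziebło metric `(a t² + b r²)(dt² - dr² - r²(dϑ² + sin²ϑ dφ²))`. -/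
noncomputable def gSO (a b : ℝ) (x u : Fin 4 → ℝ) : ℝ :=
  (a * x 0 ^ 2 + b * x 1 ^ 2) *
    (u 0 ^ 2 - u 1 ^ 2 - x 1 ^ 2 * (u 2 ^ 2 + sin (x 2) ^ 2 * u 3 ^ 2))

/-- `r̄ = r e^{(ψ(t) - F(m))/2}`, `m = m(t,r)`. -/
noncomputable def rbar (ψ F : ℝ → ℝ) (m : ℝ × ℝ → ℝ) (t r : ℝ) : ℝ :=
  r * exp ((ψ t - F (m (t, r))) / 2)

/-- The metric of the first Vaidya–Shah class with data `ψ`, `P` (antiderivative `F`), `m`:
`(r/r̄)² dt²/(1+Pr) - (r̄/r)² dr²/(1+Pr) - r̄²(dϑ² + sin²ϑ dφ²)`. -/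
noncomputable def gVS (ψ F P : ℝ → ℝ) (m : ℝ × ℝ → ℝ) (y w : Fin 4 → ℝ) : ℝ :=
  (y 1 / rbar ψ F m (y 0) (y 1)) ^ 2 * (w 0 ^ 2 / (1 + P (m (y 0, y 1)) * y 1))
    - (rbar ψ F m (y 0) (y 1) / y 1) ^ 2 * (w 1 ^ 2 / (1 + P (m (y 0, y 1)) * y 1))
    - rbar ψ F m (y 0) (y 1) ^ 2 * (w 2 ^ 2 + sin (y 2) ^ 2 * w 3 ^ 2)

/-- Admissible data of the first Vaidya–Shah class on the open set `U` of the `(t,r)`-plane.
The functions `ψ`, `P`, `F` are only required to be smooth where they are used (so functions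
defined on the whole line or only on intervals are both covered). -/
structure Admissible (ψ F P : ℝ → ℝ) (m : ℝ × ℝ → ℝ) (U : Set (ℝ × ℝ)) : Prop where
  isOpen : IsOpen U
  psi_smooth : ∀ p ∈ U, ContDiffAt ℝ ∞ ψ p.1
  P_smooth : ∀ p ∈ U, ContDiffAt ℝ ∞ P (m p)
  F_antideriv : ∀ p ∈ U, ∀ᶠ s in 𝓝 (m p), HasDerivAt F (P s) s
  m_smooth : ContDiffOn ℝ ∞ m U
  pos : ∀ p ∈ U, 0 < 1 + P (m p) * p.2
  eq_r : ∀ p ∈ U, HasDerivAt (fun r => m (p.1, r)) (1 + P (m p) * p.2)⁻¹ p.2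
  eq_t : ∀ p ∈ U, HasDerivAt (fun t => m (t, p.2))
    (-(exp (-ψ p.1) * (1 + P (m p) * p.2)⁻¹ * exp (F (m p)))) p.1

/-- The coordinate domain on which `gSO a b` is a Lorentzian metric with positive factor. -/
def domSO (a b : ℝ) : Set (Fin 4 → ℝ) :=
  {x | 0 < a * x 0 ^ 2 + b * x 1 ^ 2 ∧ x 1 ≠ 0 ∧ sin (x 2) ≠ 0}

/-- The coordinate domain on which `gVS ψ F P m` is a Lorentzian metric. -/
def domVS (U : Set (ℝ × ℝ)) : Set (Fin 4 → ℝ) :=
  {y | (y 0, y 1) ∈ U ∧ y 1 ≠ 0 ∧ sin (y 2) ≠ 0}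

/-- There is a smooth map `χ` of a nonempty open set `V` of the Siemieniec-Oziebło spacetime into
the Vaidya–Shah spacetime with data `ψ, F, P, m, U`, pulling the second metric back to the first.
(Local isometries are such maps; we do not even require `χ` to be a diffeomorphism.) -/
def HasLocalIsometry (a b : ℝ) (ψ F P : ℝ → ℝ) (m : ℝ × ℝ → ℝ) (U : Set (ℝ × ℝ)) : Prop :=
  ∃ V : Set (Fin 4 → ℝ), IsOpen V ∧ V.Nonempty ∧ V ⊆ domSO a b ∧
    ∃ χ : (Fin 4 → ℝ) → (Fin 4 → ℝ), ContDiffOn ℝ ∞ χ V ∧ Set.MapsTo χ V (domVS U) ∧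
      ∀ x ∈ V, ∀ u, gVS ψ F P m (χ x) (fderiv ℝ χ x u) = gSO a b x u

/-- The Siemieniec-Oziebło metric with constants `a, b` is a subcase of the first class. -/
def IsSubcase (a b : ℝ) : Prop :=
  ∃ (ψ F P : ℝ → ℝ) (m : ℝ × ℝ → ℝ) (U : Set (ℝ × ℝ)),
    Admissible ψ F P m U ∧ HasLocalIsometry a b ψ F P m U

/-! ## Cartesian coordinates -/

/-- spherical to Cartesian coordinates -/
noncomputable def kap (x : E4) : E4 :=
  ![x 0, x 1 * (sin (x 2) * cos (x 3)), x 1 * (sin (x 2) * sin (x 3)), x 1 * cos (x 2)]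

theorem kap_smooth : ContDiff ℝ 5 kap := by
  rw [contDiff_pi]
  have h : ∀ i : Fin 4, ContDiff ℝ 5 (fun x : E4 => x i) := fun i => contDiff_apply ℝ ℝ i
  intro i
  fin_cases i
  · exact h 0
  · exact (h 1).mul ((h 2).sin.mul (h 3).cos)
  · exact (h 1).mul ((h 2).sin.mul (h 3).sin)
  · exact (h 1).mul (h 2).cos

theorem coord_line (x u : E4) (i : Fin 4) :
    HasDerivAt (fun s : ℝ => (x + s • u) i) (u i) 0 := by
  simpa using ((hasDerivAt_id (0:ℝ)).mul_const (u i)).const_add (x i)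

theorem sph_deriv {r th ph : ℝ → ℝ} {r' th' ph' : ℝ} {s : ℝ} (hr : HasDerivAt r r' s)
    (ht : HasDerivAt th th' s) (hp : HasDerivAt ph ph' s) :
    HasDerivAt (fun s => r s * (sin (th s) * cos (ph s)))
      (r' * (sin (th s) * cos (ph s)) + r s * (cos (th s) * th' * cos (ph s)
        - sin (th s) * (sin (ph s) * ph'))) s ∧
    HasDerivAt (fun s => r s * (sin (th s) * sin (ph s)))
      (r' * (sin (th s) * sin (ph s)) + r s * (cos (th s) * th' * sin (ph s)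
        + sin (th s) * (cos (ph s) * ph'))) s ∧
    HasDerivAt (fun s => r s * cos (th s))
      (r' * cos (th s) - r s * (sin (th s) * th')) s := by
  refine ⟨?_, ?_, ?_⟩
  · refine HasDerivAt.congr_deriv (hr.mul (ht.sin.mul hp.cos)) ?_
    ring
  · refine HasDerivAt.congr_deriv (hr.mul (ht.sin.mul hp.sin)) ?_
    ring
  · refine HasDerivAt.congr_deriv (hr.mul ht.cos) ?_
    ring

theorem kap_eta (x u : E4) : eta (fderiv ℝ kap x u) (fderiv ℝ kap x u) =
    u 0 ^ 2 - u 1 ^ 2 - x 1 ^ 2 * (u 2 ^ 2 + sin (x 2) ^ 2 * u 3 ^ 2) := by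
  have hd := hasDerivAt_line0 (u := u) (kap_smooth.differentiable (by norm_num) x)
  have hi := hasDerivAt_pi.mp hd
  obtain ⟨s1, s2, s3⟩ := sph_deriv (coord_line x u 1) (coord_line x u 2) (coord_line x u 3)
  have e0 := (hi 0).unique (coord_line x u 0)
  have e1 := (hi 1).unique s1
  have e2 := (hi 2).unique s2
  have e3 := (hi 3).unique s3
  simp only [zero_smul, add_zero] at e1 e2 e3
  unfold eta
  rw [e0, e1, e2, e3]
  have h2 := sin_sq_add_cos_sq (x 2)
  have h3 := sin_sq_add_cos_sq (x 3)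
  have c2 : cos (x 2) ^ 2 = 1 - sin (x 2) ^ 2 := by linarith
  have c3 : cos (x 3) ^ 2 = 1 - sin (x 3) ^ 2 := by linarith
  ring_nf
  simp only [c2, c3]
  ring

theorem quad_nondeg {S r2 : ℝ} (hr : r2 ≠ 0) (hS : S ≠ 0) {u : E4}
    (h : ∀ w : E4, (u 0 + w 0) ^ 2 - (u 1 + w 1) ^ 2 - r2 * ((u 2 + w 2) ^ 2
      + S * (u 3 + w 3) ^ 2) = w 0 ^ 2 - w 1 ^ 2 - r2 * (w 2 ^ 2 + S * w 3 ^ 2)) : u = 0 := by
  have h0 := h 0
  have h1 := h (bs 0)
  have h2 := h (bs 1)
  have h3 := h (bs 2)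
  have h4 := h (bs 3)
  simp [bs] at h0 h1 h2 h3 h4
  have u0 : u 0 = 0 := by linarith
  have u1 : u 1 = 0 := by linarith
  have u2 : r2 * u 2 = 0 := by linarith
  have u3 : r2 * S * u 3 = 0 := by linarith
  have u2' : u 2 = 0 := by
    rcases mul_eq_zero.mp u2 with h | h
    · exact absurd h hr
    · exact h
  have u3' : u 3 = 0 := by
    rcases mul_eq_zero.mp u3 with h | h
    · exact absurd h (mul_ne_zero hr hS)
    · exact h
  funext i
  fin_cases i <;> simp [u0, u1, u2', u3']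

theorem kap_inj {x : E4} (hr : x 1 ≠ 0) (hs : sin (x 2) ≠ 0) :
    Function.Injective (fderiv ℝ kap x) := by
  intro u v huv
  have hz : fderiv ℝ kap x (u - v) = 0 := by rw [map_sub, huv, sub_self]
  have : u - v = 0 := by
    apply quad_nondeg (r2 := x 1 ^ 2) (S := sin (x 2) ^ 2) (pow_ne_zero 2 hr) (pow_ne_zero 2 hs)
    intro w
    have h1 := kap_eta x (u - v + w)
    have h2 := kap_eta x w
    rw [map_add, hz, zero_add, h2] at h1
    simpa using h1.symm
  exact sub_eq_zero.mp this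

/-- rotated Cartesian frame adapted to the direction `(ϑ₀, φ₀)` -/
noncomputable def frame (th ph : ℝ) (y : E4) : E4 :=
  ![y 0, y 1 * (sin th * cos ph) + y 2 * (cos th * cos ph) - y 3 * sin ph,
    y 1 * (sin th * sin ph) + y 2 * (cos th * sin ph) + y 3 * cos ph,
    y 1 * cos th - y 2 * sin th]

noncomputable def frameL (th ph : ℝ) : E4 →L[ℝ] E4 :=
  LinearMap.toContinuousLinearMap
    { toFun := frame th ph
      map_add' := by
        intro y z
        funext i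
        fin_cases i <;> simp [frame] <;> ring
      map_smul' := by
        intro c y
        funext i
        fin_cases i <;> simp [frame] <;> ring }

theorem frameL_apply (th ph : ℝ) (y : E4) : frameL th ph y = frame th ph y := rfl

theorem frame_eta (th ph : ℝ) (u w : E4) : eta (frame th ph u) (frame th ph w) = eta u w := by
  have h2 := sin_sq_add_cos_sq th
  have h3 := sin_sq_add_cos_sq ph
  simp only [eta, frame, Matrix.cons_val]
  linear_combination (-((u 1 * sin th + u 2 * cos th) * (w 1 * sin th + w 2 * cos th)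
    + u 3 * w 3)) * h3 - (u 1 * w 1 + u 2 * w 2) * h2

theorem frame_Phi (a b th ph : ℝ) (u : E4) : Phi a b (frame th ph u) = Phi a b u := by
  have h := frame_eta th ph u u
  have h0 : frame th ph u 0 = u 0 := rfl
  unfold Phi
  unfold eta at h
  rw [h0] at h ⊢
  linear_combination (-b) * h

theorem kap_Phi (a b : ℝ) (x : E4) : Phi a b (kap x) = a * x 0 ^ 2 + b * x 1 ^ 2 := by
  have h2 := sin_sq_add_cos_sq (x 2)
  have h3 := sin_sq_add_cos_sq (x 3)
  simp only [Phi, kap, Matrix.cons_val]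
  linear_combination (b * x 1 ^ 2 * sin (x 2) ^ 2) * h3 + b * x 1 ^ 2 * h2

theorem frame_pt (x : E4) : frame (x 2) (x 3) (pt (x 0) (x 1)) = kap x := by
  funext i
  fin_cases i <;> simp [frame, pt, kap]

theorem five_le : (5 : WithTop ℕ∞) ≤ ∞ := WithTop.coe_le_coe.mpr (le_top : (5 : ℕ∞) ≤ ⊤)

/-! ## Pulling back to Cartesian coordinates -/

/-- A point of an open set with nonzero first coordinate. -/
theorem exists_ne {V : Set E4} (hV : IsOpen V) (hne : V.Nonempty) : ∃ x ∈ V, x 0 ≠ 0 := by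
  obtain ⟨x, hx⟩ := hne
  by_cases h0 : x 0 = 0
  · have h1 : ∀ᶠ s : ℝ in 𝓝[≠] 0, x + s • bs 0 ∈ V :=
      (line_mem hV hx (bs 0)).filter_mono nhdsWithin_le_nhds
    obtain ⟨s, hs, hs0⟩ := (h1.and self_mem_nhdsWithin).exists
    refine ⟨_, hs, ?_⟩
    simpa [bs, h0] using hs0
  · exact ⟨x, hx, h0⟩

theorem exists_f {a b : ℝ} {g : E4 → E4 → ℝ} {dom : Set E4} {V : Set E4} (hV : IsOpen V)
    (hne : V.Nonempty) (hVd : V ⊆ domSO a b) {χ : E4 → E4} (hχ : ContDiffOn ℝ ∞ χ V)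
    (hmaps : Set.MapsTo χ V dom)
    (hiso : ∀ x ∈ V, ∀ u, g (χ x) (fderiv ℝ χ x u) = gSO a b x u) :
    ∃ (T S : ℝ) (f : E4 → E4), T ≠ 0 ∧ S ≠ 0 ∧ ContDiffAt ℝ 5 f (pt T S) ∧
      ∀ᶠ y in 𝓝 (pt T S), f y ∈ dom ∧ 0 < Phi a b y ∧
        ∀ u, g (f y) (fderiv ℝ f y u) = Phi a b y * eta u u := by
  obtain ⟨x, hx, hx0⟩ := exists_ne hV hne
  obtain ⟨hpos, hx1, hx2⟩ := hVd hx
  have hinj := kap_inj hx1 hx2
  let G : E4 ≃L[ℝ] E4 := (LinearEquiv.ofInjectiveEndo (fderiv ℝ kap x).toLinearMap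
    hinj).toContinuousLinearEquiv
  have hGc : (G : E4 →L[ℝ] E4) = fderiv ℝ kap x := by
    ext v i
    rfl
  have hkd : HasFDerivAt kap (G : E4 →L[ℝ] E4) x := by
    rw [hGc]
    exact (kap_smooth.differentiable (by norm_num) x).hasFDerivAt
  have hkc : ContDiffAt ℝ 5 kap x := kap_smooth.contDiffAt
  have hstrict := hkc.hasStrictFDerivAt' hkd (by norm_num)
  obtain ⟨σ, hσ⟩ : ∃ σ, σ = hstrict.localInverse kap G x := ⟨_, rfl⟩
  have hσx : σ (kap x) = x := by rw [hσ]; exact hstrict.localInverse_apply_image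
  have hσr : ∀ᶠ y in 𝓝 (kap x), kap (σ y) = y := by
    rw [hσ]; exact hstrict.eventually_right_inverse
  have hσC : ContDiffAt ℝ 5 σ (kap x) := by
    rw [hσ]; exact hkc.to_localInverse hkd (by norm_num)
  have hσC' : ∀ᶠ y in 𝓝 (kap x), ContDiffAt ℝ 5 σ y := hσC.eventually (by decide)
  have hσV : ∀ᶠ y in 𝓝 (kap x), σ y ∈ V := by
    have := hσC.continuousAt
    unfold ContinuousAt at this
    rw [hσx] at this
    exact this.eventually (hV.mem_nhds hx)
  have hLc : ContinuousAt (frameL (x 2) (x 3)) (pt (x 0) (x 1)) :=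
    (frameL (x 2) (x 3)).continuous.continuousAt
  have hL0 : frameL (x 2) (x 3) (pt (x 0) (x 1)) = kap x := frame_pt x
  have hχC : ∀ z ∈ V, ContDiffAt ℝ 5 χ z := fun z hz =>
    ((hχ z hz).contDiffAt (hV.mem_nhds hz)).of_le (WithTop.coe_le_coe.mpr (le_top : (5 : ℕ∞) ≤ ⊤))
  refine ⟨x 0, x 1, fun y => χ (σ (frameL (x 2) (x 3) y)), hx0, hx1, ?_, ?_⟩
  · have h1 : ContDiffAt ℝ 5 χ (σ (frameL (x 2) (x 3) (pt (x 0) (x 1)))) := by
      rw [hL0, hσx]; exact hχC x hx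
    have h2 : ContDiffAt ℝ 5 σ (frameL (x 2) (x 3) (pt (x 0) (x 1))) := by
      rw [hL0]; exact hσC
    have h3 : ContDiffAt ℝ 5 (fun y => σ (frameL (x 2) (x 3) y)) (pt (x 0) (x 1)) :=
      h2.comp (pt (x 0) (x 1)) (frameL (x 2) (x 3)).contDiff.contDiffAt
    exact h1.comp (pt (x 0) (x 1)) h3
  · have hall : ∀ᶠ z in 𝓝 (kap x), σ z ∈ V ∧ ContDiffAt ℝ 5 σ z ∧ kap (σ z) = z ∧
        ∀ᶠ z' in 𝓝 z, kap (σ z') = z' := by
      filter_upwards [hσV, hσC', hσr, hσr.eventually_nhds] with z h1 h2 h3 h4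
      exact ⟨h1, h2, h3, h4⟩
    unfold ContinuousAt at hLc
    rw [hL0] at hLc
    filter_upwards [hLc.eventually hall] with y hy
    obtain ⟨hyV, hyC, hyk, hyk'⟩ := hy
    refine ⟨hmaps hyV, ?_, ?_⟩
    · rw [← frame_Phi a b (x 2) (x 3) y, ← frameL_apply, ← hyk, kap_Phi]
      exact (hVd hyV).1
    · intro u
      have d1 : HasFDerivAt (fun y => frameL (x 2) (x 3) y) (frameL (x 2) (x 3)) y :=
        (frameL (x 2) (x 3)).hasFDerivAt
      have d2 : HasFDerivAt σ (fderiv ℝ σ (frameL (x 2) (x 3) y)) (frameL (x 2) (x 3) y) :=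
        (hyC.differentiableAt (by norm_num)).hasFDerivAt
      have d3 : HasFDerivAt χ (fderiv ℝ χ (σ (frameL (x 2) (x 3) y)))
          (σ (frameL (x 2) (x 3) y)) :=
        ((hχC _ hyV).differentiableAt (by norm_num)).hasFDerivAt
      have d4 := (d3.comp y (d2.comp y d1)).fderiv
      have d5 : fderiv ℝ (fun y => χ (σ (frameL (x 2) (x 3) y))) y u
          = fderiv ℝ χ (σ (frameL (x 2) (x 3) y))
            (fderiv ℝ σ (frameL (x 2) (x 3) y) (frameL (x 2) (x 3) u)) :=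
        congrArg (fun T => T u) d4
      rw [d5, hiso _ hyV]
      have d6 : HasFDerivAt kap (fderiv ℝ kap (σ (frameL (x 2) (x 3) y)))
          (σ (frameL (x 2) (x 3) y)) :=
        (kap_smooth.differentiable (by norm_num) _).hasFDerivAt
      have d7 := d6.comp (frameL (x 2) (x 3) y) d2
      have d8 : HasFDerivAt (kap ∘ σ) (ContinuousLinearMap.id ℝ E4) (frameL (x 2) (x 3) y) :=
        (hasFDerivAt_id _).congr_of_eventuallyEq hyk'
      have d9 : fderiv ℝ kap (σ (frameL (x 2) (x 3) y))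
            (fderiv ℝ σ (frameL (x 2) (x 3) y) (frameL (x 2) (x 3) u))
          = frameL (x 2) (x 3) u := congrArg (fun T => T (frameL (x 2) (x 3) u)) (d7.unique d8)
      have d10 := kap_eta (σ (frameL (x 2) (x 3) y))
        (fderiv ℝ σ (frameL (x 2) (x 3) y) (frameL (x 2) (x 3) u))
      have d11 : eta (frameL (x 2) (x 3) u) (frameL (x 2) (x 3) u) = eta u u := by
        rw [frameL_apply, frame_eta]
      rw [d9, d11] at d10
      unfold gSO
      rw [← d10, ← kap_Phi, hyk, frameL_apply, frame_Phi]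

/-! ## The data attached to a Vaidya–Shah metric -/

theorem smooth_of_deriv {F f : ℝ → ℝ} {s0 : ℝ} {n : ℕ} (h : ∀ᶠ s in 𝓝 s0, HasDerivAt F (f s) s)
    (hf : ContDiffAt ℝ n f s0) : ContDiffAt ℝ (n + 1) F s0 := by
  rw [contDiffAt_succ_iff_hasFDerivAt]
  refine ⟨fun s => ContinuousLinearMap.toSpanSingleton ℝ (f s), ⟨_, h, fun s hs => hs.hasFDerivAt⟩,
    ?_⟩
  exact (ContinuousLinearMap.toSpanSingletonCLE (𝕜 := ℝ) (E := ℝ)).contDiff.contDiffAt.comp s0 hf

theorem exists_antideriv {c : ℝ → ℝ} {s0 : ℝ} (hc : ContDiffAt ℝ 1 c s0) :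
    ∃ V : ℝ → ℝ, ∀ᶠ s in 𝓝 s0, HasDerivAt V (c s) s := by
  have h1 : ∀ᶠ s in 𝓝 s0, ContinuousAt c s := by
    filter_upwards [hc.eventually (by decide)] with s hs using hs.continuousAt
  obtain ⟨ε, hε, hball⟩ := Metric.eventually_nhds_iff_ball.mp h1
  have hco : ContinuousOn c (Metric.ball s0 ε) := fun s hs =>
    (hball s hs).continuousWithinAt
  refine ⟨fun u => ∫ x in s0..u, c x, ?_⟩
  filter_upwards [Metric.ball_mem_nhds s0 hε] with s hs
  apply intervalIntegral.integral_hasDerivAt_right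
  · apply ContinuousOn.intervalIntegrable
    apply hco.mono
    have : Convex ℝ (Metric.ball s0 ε) := convex_ball s0 ε
    exact (this.ordConnected).uIcc_subset (Metric.mem_ball_self hε) hs
  · exact hco.stronglyMeasurableAtFilter Metric.isOpen_ball s hs
  · exact hball s hs

theorem fderiv_of_line {g : E4 → ℝ} {y u : E4} {g' : ℝ} (hd : DifferentiableAt ℝ g y)
    (h : HasDerivAt (fun s : ℝ => g (y + s • u)) g' 0) : fderiv ℝ g y u = g' :=
  (hasDerivAt_line0 hd).unique h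

theorem comp0 {F g : ℝ → ℝ} {F' g' x : ℝ} (hF : HasDerivAt F F' x) (hg : HasDerivAt g g' 0)
    (hx : g 0 = x) : HasDerivAt (fun s => F (g s)) (F' * g') 0 := by
  subst hx
  exact hF.comp 0 hg

theorem sph_sq (R R' th th' ph ph' : ℝ) :
    (R' * (sin th * cos ph) + R * (cos th * th' * cos ph - sin th * (sin ph * ph'))) ^ 2
    + (R' * (sin th * sin ph) + R * (cos th * th' * sin ph + sin th * (cos ph * ph'))) ^ 2
    + (R' * cos th - R * (sin th * th')) ^ 2 = R' ^ 2 + R ^ 2 * (th' ^ 2 + sin th ^ 2 * ph' ^ 2) := by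
  have h2 := sin_sq_add_cos_sq th
  have h3 := sin_sq_add_cos_sq ph
  have c2 : cos th ^ 2 = 1 - sin th ^ 2 := by linarith
  have c3 : cos ph ^ 2 = 1 - sin ph ^ 2 := by linarith
  ring_nf
  simp only [c2, c3]
  ring

theorem confalg {A c N P r tu ru Q Mu : ℝ} (hA : A ≠ 0) (hc : c ≠ 0) (hN : N ≠ 0)
    (hNdef : N = 1 + P * r) (hMu : Mu = N⁻¹ * ru - (A ^ 2)⁻¹ * N⁻¹ * (c ^ 2)⁻¹ * tu) :
    (c * Mu - (ru * c + r * (c * (-(P * Mu) / 2)))) ^ 2
      - ((ru * c + r * (c * (-(P * Mu) / 2))) ^ 2 + (r * c) ^ 2 * Q)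
    = (A ^ 2)⁻¹ * ((1 / (A * c)) ^ 2 * (tu ^ 2 / N) - (A * c) ^ 2 * (ru ^ 2 / N)
      - (r * (A * c)) ^ 2 * Q) := by
  have h1 : N * Mu = ru - (A ^ 2)⁻¹ * (c ^ 2)⁻¹ * tu := by
    rw [hMu]; field_simp
  have h2 : (c * Mu - (ru * c + r * (c * (-(P * Mu) / 2)))) ^ 2
      - ((ru * c + r * (c * (-(P * Mu) / 2))) ^ 2 + (r * c) ^ 2 * Q)
      = c ^ 2 * Mu * (N * Mu - 2 * ru) - (r * c) ^ 2 * Q := by
    rw [hNdef]; ring
  rw [h2, h1, hMu]
  field_simp
  ring

noncomputable def cf (F : ℝ → ℝ) (m : ℝ × ℝ → ℝ) (f : E4 → E4) (y : E4) : ℝ :=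
  exp (-(F (m (f y 0, f y 1))) / 2)

noncomputable def Rf (F : ℝ → ℝ) (m : ℝ × ℝ → ℝ) (f : E4 → E4) (y : E4) : ℝ := f y 1 * cf F m f y

noncomputable def Xf (Vf F : ℝ → ℝ) (m : ℝ × ℝ → ℝ) (f : E4 → E4) (y : E4) : E4 :=
  ![Vf (m (f y 0, f y 1)) - f y 1 * cf F m f y,
    f y 1 * cf F m f y * (sin (f y 2) * cos (f y 3)),
    f y 1 * cf F m f y * (sin (f y 2) * sin (f y 3)),
    f y 1 * cf F m f y * cos (f y 2)]

/-- The reduction of a Vaidya–Shah metric in Cartesian-conformal form to the core theorem. -/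
theorem red {a b : ℝ} {ψ F P : ℝ → ℝ} {m : ℝ × ℝ → ℝ} {U : Set (ℝ × ℝ)}
    (hA : Admissible ψ F P m U) (hb : b ≠ 0) (hab : a + b ≠ 0) {T S : ℝ} (hT : T ≠ 0)
    (hS : S ≠ 0) {f : E4 → E4} (hf : ContDiffAt ℝ 5 f (pt T S))
    (hev : ∀ᶠ y in 𝓝 (pt T S), f y ∈ domVS U ∧ 0 < Phi a b y ∧
      ∀ u, gVS ψ F P m (f y) (fderiv ℝ f y u) = Phi a b y * eta u u) : False := by
  obtain ⟨hdom0, -, -⟩ := hev.self_of_nhds
  have hp0 : (f (pt T S) 0, f (pt T S) 1) ∈ U := hdom0.1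
  have hfi : ∀ i : Fin 4, ContDiffAt ℝ 5 (fun y => f y i) (pt T S) := fun i =>
    contDiffAt_pi.mp hf i
  -- smoothness
  have hm : ContDiffAt ℝ 5 m (f (pt T S) 0, f (pt T S) 1) :=
    ((hA.m_smooth _ hp0).contDiffAt (hA.isOpen.mem_nhds hp0)).of_le five_le
  have hM : ContDiffAt ℝ 5 (fun y => m (f y 0, f y 1)) (pt T S) :=
    hm.comp (pt T S) ((hfi 0).prodMk (hfi 1))
  have hP : ContDiffAt ℝ 5 P (m (f (pt T S) 0, f (pt T S) 1)) := (hA.P_smooth _ hp0).of_le five_le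
  have hF : ContDiffAt ℝ 5 F (m (f (pt T S) 0, f (pt T S) 1)) :=
    smooth_of_deriv (n := 4) (hA.F_antideriv _ hp0) (hP.of_le (by norm_num))
  have hc : ContDiffAt ℝ 5 (fun s => exp (-(F s) / 2)) (m (f (pt T S) 0, f (pt T S) 1)) :=
    (hF.neg.div_const 2).exp
  obtain ⟨Vf, hVf⟩ := exists_antideriv (hc.of_le (by norm_num))
  have hVfC : ContDiffAt ℝ 5 Vf (m (f (pt T S) 0, f (pt T S) 1)) :=
    smooth_of_deriv (n := 4) hVf (hc.of_le (by norm_num))
  have hψ : ContDiffAt ℝ 5 ψ (f (pt T S) 0) := (hA.psi_smooth _ hp0).of_le five_le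
  have hψ' : ContDiffAt ℝ 4 (deriv ψ) (f (pt T S) 0) := by
    have := (hψ.fderiv_right (m := 4) (by norm_num)).clm_apply
      (contDiffAt_const (c := (1:ℝ)) (x := f (pt T S) 0) (n := 4))
    exact this
  have hccC : ContDiffAt ℝ 5 (fun y => exp (-(F (m (f y 0, f y 1))) / 2)) (pt T S) :=
    ContDiffAt.comp (g := fun s => exp (-(F s) / 2)) (pt T S) hc hM
  have hPPC : ContDiffAt ℝ 5 (fun y => P (m (f y 0, f y 1))) (pt T S) :=
    ContDiffAt.comp (pt T S) hP hM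
  have hVVC : ContDiffAt ℝ 5 (fun y => Vf (m (f y 0, f y 1))) (pt T S) :=
    ContDiffAt.comp (pt T S) hVfC hM
  have hRC : ContDiffAt ℝ 5 (fun y => f y 1 * exp (-(F (m (f y 0, f y 1))) / 2)) (pt T S) :=
    (hfi 1).mul hccC
  have hXC : ContDiffAt ℝ 5 (fun y => (![Vf (m (f y 0, f y 1))
      - f y 1 * exp (-(F (m (f y 0, f y 1))) / 2),
      f y 1 * exp (-(F (m (f y 0, f y 1))) / 2) * (sin (f y 2) * cos (f y 3)),
      f y 1 * exp (-(F (m (f y 0, f y 1))) / 2) * (sin (f y 2) * sin (f y 3)),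
      f y 1 * exp (-(F (m (f y 0, f y 1))) / 2) * cos (f y 2)] : E4)) (pt T S) := by
    rw [contDiffAt_pi]
    intro i
    fin_cases i
    · exact hVVC.sub hRC
    · exact hRC.mul ((hfi 2).sin.mul (hfi 3).cos)
    · exact hRC.mul ((hfi 2).sin.mul (hfi 3).sin)
    · exact hRC.mul (hfi 2).cos
  have hhC : ContDiffAt ℝ 5 (fun y => ψ (f y 0) / 2) (pt T S) :=
    (ContDiffAt.comp (pt T S) hψ (hfi 0)).div_const 2
  have hHC : ContDiffAt ℝ 4 (fun y => 1 / 2 * deriv ψ (f y 0) * exp (ψ (f y 0))) (pt T S) := by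
    have h1 : ContDiffAt ℝ 4 (fun y => deriv ψ (f y 0)) (pt T S) :=
      ContDiffAt.comp (pt T S) hψ' ((hfi 0).of_le (by norm_num))
    have h2 : ContDiffAt ℝ 4 (fun y => ψ (f y 0)) (pt T S) :=
      ContDiffAt.comp (pt T S) (hψ.of_le (by norm_num)) ((hfi 0).of_le (by norm_num))
    exact (contDiffAt_const.mul h1).mul h2.exp
  -- the open set
  have hVe : ∀ᶠ y in 𝓝 (pt T S), HasDerivAt Vf (exp (-(F (m (f y 0, f y 1))) / 2))
      (m (f y 0, f y 1)) := hM.continuousAt.eventually hVf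
  have hψe : ∀ᶠ y in 𝓝 (pt T S), ContDiffAt ℝ 4 (deriv ψ) (f y 0) :=
    (hfi 0).continuousAt.eventually (hψ'.eventually (by decide))
  obtain ⟨W, hWsub, hWo, hWm⟩ := mem_nhds_iff.mp
    (((hev.and (hf.eventually (by decide))).and ((hXC.eventually (by decide)).and
      (hRC.eventually (by decide)))).and (((hccC.eventually (by decide)).and
      (hPPC.eventually (by decide))).and ((hhC.eventually (by decide)).and
      ((hHC.eventually (by decide)).and (hVe.and hψe)))))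
  -- pointwise facts
  have hWy : ∀ y ∈ W, (((f y ∈ domVS U ∧ 0 < Phi a b y ∧
      ∀ u, gVS ψ F P m (f y) (fderiv ℝ f y u) = Phi a b y * eta u u) ∧ ContDiffAt ℝ 5 f y) ∧ _) ∧ _ :=
    fun y hy => hWsub hy
  have hp : ∀ y ∈ W, (f y 0, f y 1) ∈ U := fun y hy => ((hWy y hy).1.1.1.1).1
  have hN : ∀ y ∈ W, 0 < 1 + P (m (f y 0, f y 1)) * f y 1 := fun y hy => hA.pos _ (hp y hy)
  have hfl : ∀ y ∈ W, ∀ u : E4, ∀ i : Fin 4,
      HasDerivAt (fun s : ℝ => f (y + s • u) i) (fderiv ℝ f y u i) 0 := fun y hy u i =>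
    (hasDerivAt_pi.mp (hasDerivAt_line0 (u := u)
      (((hWy y hy).1.1.2).differentiableAt (by norm_num)))) i
  obtain ⟨Mu, hMu⟩ : ∃ Mu : E4 → E4 → ℝ, ∀ y u, Mu y u =
      (1 + P (m (f y 0, f y 1)) * f y 1)⁻¹ * fderiv ℝ f y u 1
      - exp (-ψ (f y 0)) * (1 + P (m (f y 0, f y 1)) * f y 1)⁻¹ * exp (F (m (f y 0, f y 1)))
        * fderiv ℝ f y u 0 := ⟨_, fun _ _ => rfl⟩
  have hMl : ∀ y ∈ W, ∀ u : E4, HasDerivAt
      (fun s : ℝ => m (f (y + s • u) 0, f (y + s • u) 1)) (Mu y u) 0 := by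
    intro y hy u
    have hmd : HasFDerivAt m (fderiv ℝ m (f y 0, f y 1)) (f y 0, f y 1) :=
      (((hA.m_smooth _ (hp y hy)).contDiffAt (hA.isOpen.mem_nhds (hp y hy))).differentiableAt
        (by simp)).hasFDerivAt
    have e1 : fderiv ℝ m (f y 0, f y 1) (0, 1) = (1 + P (m (f y 0, f y 1)) * f y 1)⁻¹ := by
      have h1 : HasDerivAt (fun r : ℝ => (f y 0, r)) ((0, 1) : ℝ × ℝ) (f y 1) :=
        (hasDerivAt_const _ _).prodMk (hasDerivAt_id _)
      have h2 := hmd.comp_hasDerivAt (f y 1) h1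
      exact h2.unique (hA.eq_r _ (hp y hy))
    have e0 : fderiv ℝ m (f y 0, f y 1) (1, 0) = -(exp (-ψ (f y 0)) *
        (1 + P (m (f y 0, f y 1)) * f y 1)⁻¹ * exp (F (m (f y 0, f y 1)))) := by
      have h1 : HasDerivAt (fun r : ℝ => (r, f y 1)) ((1, 0) : ℝ × ℝ) (f y 0) :=
        (hasDerivAt_id _).prodMk (hasDerivAt_const _ _)
      have h2 := hmd.comp_hasDerivAt (f y 0) h1
      exact h2.unique (hA.eq_t _ (hp y hy))
    have h1 := (hfl y hy u 0).prodMk (hfl y hy u 1)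
    have hmd' : HasFDerivAt m (fderiv ℝ m (f y 0, f y 1))
        ((fun s : ℝ => (f (y + s • u) 0, f (y + s • u) 1)) 0) := by simpa using hmd
    refine HasDerivAt.congr_deriv (hmd'.comp_hasDerivAt (0:ℝ) h1) ?_
    have h3 : ((fderiv ℝ f y u 0, fderiv ℝ f y u 1) : ℝ × ℝ)
        = fderiv ℝ f y u 0 • ((1, 0) : ℝ × ℝ) + fderiv ℝ f y u 1 • ((0, 1) : ℝ × ℝ) := by simp
    rw [h3, map_add, map_smul, map_smul, e0, e1, hMu]
    simp only [smul_eq_mul]
    ring
  have hFd : ∀ y ∈ W, HasDerivAt F (P (m (f y 0, f y 1))) (m (f y 0, f y 1)) := fun y hy =>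
    (hA.F_antideriv _ (hp y hy)).self_of_nhds
  have hccl : ∀ y ∈ W, ∀ u : E4, HasDerivAt
      (fun s : ℝ => exp (-(F (m (f (y + s • u) 0, f (y + s • u) 1))) / 2))
      (exp (-(F (m (f y 0, f y 1))) / 2) * (-(P (m (f y 0, f y 1)) * Mu y u) / 2)) 0 := by
    intro y hy u
    have h1 := comp0 (hFd y hy) (hMl y hy u) (by simp)
    refine HasDerivAt.congr_deriv ((h1.neg.div_const 2).exp) ?_
    simp
  have hRl : ∀ y ∈ W, ∀ u : E4, HasDerivAt
      (fun s : ℝ => f (y + s • u) 1 * exp (-(F (m (f (y + s • u) 0, f (y + s • u) 1))) / 2))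
      (fderiv ℝ f y u 1 * exp (-(F (m (f y 0, f y 1))) / 2) + f y 1 *
        (exp (-(F (m (f y 0, f y 1))) / 2) * (-(P (m (f y 0, f y 1)) * Mu y u) / 2))) 0 := by
    intro y hy u
    refine HasDerivAt.congr_deriv ((hfl y hy u 1).mul (hccl y hy u)) ?_
    simp
  have hVl : ∀ y ∈ W, ∀ u : E4, HasDerivAt
      (fun s : ℝ => Vf (m (f (y + s • u) 0, f (y + s • u) 1)))
      (exp (-(F (m (f y 0, f y 1))) / 2) * Mu y u) 0 := by
    intro y hy u
    exact comp0 (hWy y hy).2.2.2.2.1 (hMl y hy u) (by simp)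
  have hXu : ∀ y ∈ W, ∀ u : E4,
      fderiv ℝ (Xf Vf F m f) y u 0 = cf F m f y * Mu y u - (fderiv ℝ f y u 1 * cf F m f y
        + f y 1 * (cf F m f y * (-(P (m (f y 0, f y 1)) * Mu y u) / 2))) ∧
      fderiv ℝ (Xf Vf F m f) y u 1 ^ 2 + fderiv ℝ (Xf Vf F m f) y u 2 ^ 2
        + fderiv ℝ (Xf Vf F m f) y u 3 ^ 2 = (fderiv ℝ f y u 1 * cf F m f y
        + f y 1 * (cf F m f y * (-(P (m (f y 0, f y 1)) * Mu y u) / 2))) ^ 2
        + (f y 1 * cf F m f y) ^ 2 * (fderiv ℝ f y u 2 ^ 2 + sin (f y 2) ^ 2 * fderiv ℝ f y u 3 ^ 2)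
       := by
    intro y hy u
    have hd : DifferentiableAt ℝ (Xf Vf F m f) y :=
      ((hWy y hy).1.2.1).differentiableAt (by norm_num)
    have hi := hasDerivAt_pi.mp (hasDerivAt_line0 (u := u) hd)
    obtain ⟨s1, s2, s3⟩ := sph_deriv (hRl y hy u) (hfl y hy u 2) (hfl y hy u 3)
    have e0 := (hi 0).unique ((hVl y hy u).sub (hRl y hy u))
    have e1 := (hi 1).unique s1
    have e2 := (hi 2).unique s2
    have e3 := (hi 3).unique s3
    simp only [zero_smul, add_zero] at e1 e2 e3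
    refine ⟨e0, ?_⟩
    rw [e1, e2, e3]
    exact sph_sq _ _ _ _ _ _
  have hRu : ∀ y ∈ W, ∀ u : E4, fderiv ℝ (Rf F m f) y u = fderiv ℝ f y u 1 * cf F m f y
        + f y 1 * (cf F m f y * (-(P (m (f y 0, f y 1)) * Mu y u) / 2)) := fun y hy u =>
    fderiv_of_line (((hWy y hy).1.2.2).differentiableAt (by norm_num)) (hRl y hy u)
  have hkf : ∀ y ∈ W, ∀ u : E4, kf (Xf Vf F m f) (Rf F m f) y u = cf F m f y * Mu y u := by
    intro y hy u
    unfold kf
    rw [(hXu y hy u).1, hRu y hy u]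
    ring
  have hcF : ∀ y, exp (F (m (f y 0, f y 1))) = (cf F m f y ^ 2)⁻¹ := by
    intro y
    unfold cf
    rw [← exp_nat_mul, ← exp_neg]
    congr 1
    push_cast
    ring
  have hAψ : ∀ y, exp (-ψ (f y 0)) = (exp (ψ (f y 0) / 2) ^ 2)⁻¹ := by
    intro y
    rw [← exp_nat_mul, ← exp_neg]
    congr 1
    push_cast
    ring
  have hcpos : ∀ y, 0 < cf F m f y := fun y => exp_pos _
  have hpf : ∀ y ∈ W, ∀ u : E4, pf (Xf Vf F m f) (Rf F m f) (cf F m f)
      (fun y => P (m (f y 0, f y 1))) y u = exp (-ψ (f y 0)) * fderiv ℝ f y u 0 := by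
    intro y hy u
    unfold pf
    rw [hkf y hy u, hRu y hy u]
    unfold Rf
    have hc0 := (hcpos y).ne'
    have hN0 := (hN y hy).ne'
    have h1 : (1 + P (m (f y 0, f y 1)) * f y 1) * Mu y u = fderiv ℝ f y u 1
        - exp (-ψ (f y 0)) * exp (F (m (f y 0, f y 1))) * fderiv ℝ f y u 0 := by
      rw [hMu]; field_simp
    have h2 : exp (F (m (f y 0, f y 1))) * cf F m f y ^ 2 = 1 := by
      rw [hcF]; field_simp
    linear_combination (-(cf F m f y ^ 2)) * h1 + (exp (-ψ (f y 0)) * fderiv ℝ f y u 0) * h2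
  have hconf1 : ∀ y ∈ W, ∀ u : E4, eta (fderiv ℝ (Xf Vf F m f) y u) (fderiv ℝ (Xf Vf F m f) y u)
      = Real.exp (2 * lf a b (fun y => ψ (f y 0) / 2) y) * eta u u := by
    intro y hy u
    obtain ⟨h0, h123⟩ := hXu y hy u
    have h1 : eta (fderiv ℝ (Xf Vf F m f) y u) (fderiv ℝ (Xf Vf F m f) y u)
        = fderiv ℝ (Xf Vf F m f) y u 0 ^ 2 - (fderiv ℝ (Xf Vf F m f) y u 1 ^ 2
          + fderiv ℝ (Xf Vf F m f) y u 2 ^ 2 + fderiv ℝ (Xf Vf F m f) y u 3 ^ 2) := by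
      unfold eta; ring
    have hc0 := (hcpos y).ne'
    have hA0 : exp (ψ (f y 0) / 2) ≠ 0 := (exp_pos _).ne'
    rw [h1, h0, h123, confalg hA0 hc0 (hN y hy).ne' rfl (by rw [hMu, hAψ, hcF])]
    have h2 := (hWy y hy).1.1.1.2.2 u
    have hr : f y 1 ≠ 0 := ((hWy y hy).1.1.1.1).2.1
    have h3 : rbar ψ F m (f y 0) (f y 1) = f y 1 * (exp (ψ (f y 0) / 2) * cf F m f y) := by
      unfold rbar cf
      rw [← exp_add]
      congr 2
      ring
    have h4 : f y 1 / (f y 1 * (exp (ψ (f y 0) / 2) * cf F m f y))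
        = 1 / (exp (ψ (f y 0) / 2) * cf F m f y) := by field_simp
    have h5 : (f y 1 * (exp (ψ (f y 0) / 2) * cf F m f y)) / f y 1
        = exp (ψ (f y 0) / 2) * cf F m f y := by field_simp
    unfold gVS at h2
    rw [h3, h4, h5] at h2
    rw [h2, ← hAψ]
    have h6 : Real.exp (2 * lf a b (fun y => ψ (f y 0) / 2) y)
        = Phi a b y * exp (-ψ (f y 0)) := by
      have hpos : 0 < Phi a b y := (hWy y hy).1.1.1.2.1
      unfold lf
      have : 2 * (1 / 2 * Real.log (Phi a b y) - ψ (f y 0) / 2)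
        = Real.log (Phi a b y) + (-ψ (f y 0)) := by ring
      rw [this, exp_add, exp_log hpos]
    rw [h6]
    ring
  have D : CoreData a b W (Xf Vf F m f) (Rf F m f) (cf F m f) (fun y => P (m (f y 0, f y 1)))
      (fun y => deriv P (m (f y 0, f y 1))) (fun y => ψ (f y 0) / 2)
      (fun y => 1 / 2 * deriv ψ (f y 0) * exp (ψ (f y 0)))
      (fun y => 1 / 2 * (deriv (deriv ψ) (f y 0) + deriv ψ (f y 0) ^ 2) * exp (2 * ψ (f y 0))) :=
    { isOpen := hWo
      X_smooth := fun y hy => ((hWy y hy).1.2.1).of_le (by norm_num)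
      R_smooth := fun y hy => ((hWy y hy).1.2.2).of_le (by norm_num)
      c_diff := fun y hy => ((hWy y hy).2.1.1).differentiableAt (by norm_num)
      P_diff := fun y hy => ((hWy y hy).2.1.2).differentiableAt (by norm_num)
      h_smooth := fun y hy => ((hWy y hy).2.2.1).of_le (by norm_num)
      H_diff := fun y hy => ((hWy y hy).2.2.2.1).differentiableAt (by norm_num)
      Phi_pos := fun y hy => (hWy y hy).1.1.1.2.1
      conf := by
        intro y hy u w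
        have h1 := hconf1 y hy (u + w)
        have h2 := hconf1 y hy u
        have h3 := hconf1 y hy w
        rw [map_add] at h1
        have e : ∀ u w : E4, eta (u + w) (u + w) = eta u u + 2 * eta u w + eta w w := by
          intro u w; simp only [eta, Pi.add_apply]; ring
        rw [e, e, h2, h3] at h1
        linarith
      RR := by
        intro y hy
        have h2 := sin_sq_add_cos_sq (f y 2)
        have h3 := sin_sq_add_cos_sq (f y 3)
        simp only [Xf, Rf, Matrix.cons_val]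
        linear_combination (-((f y 1 * cf F m f y) ^ 2 * sin (f y 2) ^ 2)) * h3
          - (f y 1 * cf F m f y) ^ 2 * h2
      R_ne := fun y hy => mul_ne_zero ((hWy y hy).1.1.1.1).2.1 (hcpos y).ne'
      c_ne := fun y hy => (hcpos y).ne'
      dc := by
        intro y hy u
        have h1 : fderiv ℝ (cf F m f) y u
            = cf F m f y * (-(P (m (f y 0, f y 1)) * Mu y u) / 2) :=
          fderiv_of_line (((hWy y hy).2.1.1).differentiableAt (by norm_num)) (hccl y hy u)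
        rw [h1, hkf y hy u]
        ring
      dP := by
        intro y hy u
        have hPd : HasDerivAt P (deriv P (m (f y 0, f y 1))) (m (f y 0, f y 1)) :=
          ((hA.P_smooth _ (hp y hy)).differentiableAt (by simp)).hasDerivAt
        rw [fderiv_of_line (((hWy y hy).2.1.2).differentiableAt (by norm_num))
          (comp0 hPd (hMl y hy u) (by simp)), hkf y hy u]
        have hc0 := (hcpos y).ne'
        field_simp
      dh := by
        intro y hy u
        have hψd : HasDerivAt ψ (deriv ψ (f y 0)) (f y 0) :=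
          ((hA.psi_smooth _ (hp y hy)).differentiableAt (by simp)).hasDerivAt
        rw [fderiv_of_line (((hWy y hy).2.2.1).differentiableAt (by norm_num))
          ((comp0 hψd (hfl y hy u 0) (by simp)).div_const 2), hpf y hy u]
        have h1 : exp (ψ (f y 0)) * exp (-ψ (f y 0)) = 1 := by rw [← exp_add]; simp
        linear_combination (-(1 / 2 * deriv ψ (f y 0) * fderiv ℝ f y u 0)) * h1
      dH := by
        intro y hy u
        have hψd : HasDerivAt ψ (deriv ψ (f y 0)) (f y 0) :=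
          ((hA.psi_smooth _ (hp y hy)).differentiableAt (by simp)).hasDerivAt
        have hψd2 : HasDerivAt (deriv ψ) (deriv (deriv ψ) (f y 0)) (f y 0) :=
          (((hWy y hy).2.2.2.2.2).differentiableAt (by norm_num)).hasDerivAt
        have h0 := ((comp0 hψd2 (hfl y hy u 0) (by simp)).const_mul (1 / 2)).mul
          (comp0 hψd (hfl y hy u 0) (by simp)).exp
        rw [fderiv_of_line (((hWy y hy).2.2.2.1).differentiableAt (by norm_num)) h0, hpf y hy u]
        have h1 : exp (ψ (f y 0)) * exp (-ψ (f y 0)) = 1 := by rw [← exp_add]; simp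
        have h2 : exp (2 * ψ (f y 0)) = exp (ψ (f y 0)) ^ 2 := by
          rw [← exp_nat_mul]; push_cast; rfl
        rw [h2]
        simp only [zero_smul, add_zero]
        linear_combination (-(1 / 2 * (deriv (deriv ψ) (f y 0) + deriv ψ (f y 0) ^ 2)
          * exp (ψ (f y 0)) * fderiv ℝ f y u 0)) * h1 }
  exact core_false D hb hab hT hS hWm

/-- **Main theorem.**  If `b ≠ 0` and `a + b ≠ 0` then the Siemieniec-Oziebło metric with
constants `a, b` is not a subcase of the first Vaidya–Shah class.  In particular the answer to Q1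
is negative. -/
theorem result :
    (∀ a b : ℝ, b ≠ 0 → a + b ≠ 0 → ¬ IsSubcase a b) ∧
    ¬ ∀ a b : ℝ, (∃ t r : ℝ, 0 < a * t ^ 2 + b * r ^ 2) → IsSubcase a b := by
  have main : ∀ a b : ℝ, b ≠ 0 → a + b ≠ 0 → ¬ IsSubcase a b := by
    rintro a b hb hab ⟨ψ, F, P, m, U, hA, V, hVo, hVn, hVd, χ, hχ, hmaps, hiso⟩
    obtain ⟨T, S, f, hT, hS, hf, hev⟩ := exists_f (g := gVS ψ F P m) (dom := domVS U)
      hVo hVn hVd hχ hmaps hiso
    exact red hA hb hab hT hS hf hev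
  refine ⟨main, fun h => ?_⟩
  exact main 1 1 one_ne_zero (by norm_num) (h 1 1 ⟨1, 0, by norm_num⟩)

end Pool.Agent.Results.MP_33d18a_mp.NotSubcase
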